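import Mathlib
import Pool.Agent.H458.Sp.Infin

set_option autoImplicit false

/-!
# Deciding whether there are infinitely many sparse rational points

Let `F` be a set of polynomials in `n` variables with integral coefficients (for the problem:
`n = 2` and `F` consists of one polynomial `f(x, y)`), of degree at most `d` and with sum of the
absolute values of the coefficients at most `A`.  A rational zero of `F` is `(r, B)`-sparse if its
coordinates are quotients of combinations of the same `r` powers of some integer `b ≥ 2` with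
integral coefficients of absolute value at most `B`.  The base `b` and the exponents are free.

There are explicit numbers `M = hb r B d A`, `S = bb r B d A` and `H = eb r B n d A` such that the
following are equivalent:

* `F` has infinitely many `(r, B)`-sparse rational zeros;
* some `(r, B)`-sparse rational zero has a coordinate of height larger than `M`;
* there is such a zero with base `b ≤ S` and powers `b ^ e_j ≤ H`, a finite check.

So for given `r`, `B` an algorithm decides whether the curve `f(x, y) = 0` has infinitely many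
`(r, B)`-sparse rational points, without any hypothesis on Shafarevich-Tate groups and for curves
of all genera, reducible or not; if it has infinitely many of them, it contains a rational curve
parametrised by polynomials with coefficients bounded by `M`; if it has only finitely many
rational points or only finitely many `(r, B)`-sparse ones, all the `(r, B)`-sparse points have
height at most `M`, uniformly in the base.

Method: Dirichlet's box principle for the exponents of `b` deforms a sparse point to a curve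
`b ^ m_j t ^ l_j`; a point of height larger than `M` cannot stay fixed in this deformation, and the
points with `t = b ^ N` are sparse again, with the exponents `m_j + N l_j`.  The finite check comes
from a deformation in several parameters which keeps finitely many inequations.
-/

namespace Pool.Agent.Results.MP_d6ddbd_nt.SparseInfinitude

open Pool.Agent.H458.Sp MvPolynomial

/-- the sum of the absolute values of the coefficients of `f` -/
noncomputable def coeffSum {n : ℕ} (f : MvPolynomial (Fin n) ℤ) : ℤ :=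
  ∑ s ∈ f.support, |coeff s f|

/-- the sparse integer with coefficients `c` and exponents `e` in base `b` -/
def sp {r : ℕ} (b : ℕ) (e : Fin r → ℕ) (c : Fin r → ℤ) : ℤ := ∑ j, c j * (b : ℤ) ^ (e j)

/-- the coordinates of the rational point `x` are quotients, with a common denominator, of
combinations of the powers `b ^ (e j)` with integral coefficients of absolute value at most `B` -/
def IsSparse {n r : ℕ} (B b : ℕ) (e : Fin r → ℕ) (x : Fin n → ℚ) : Prop :=
  ∃ (c0 : Fin r → ℤ) (c : Fin n → Fin r → ℤ), (∀ j, |c0 j| ≤ B) ∧ (∀ i j, |c i j| ≤ B) ∧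
    sp b e c0 ≠ 0 ∧ ∀ i, x i = (sp b e (c i) : ℚ) / sp b e c0

/-- the sparse rational zeros of `F`: the base `b ≥ 2` and the `r` exponents are arbitrary -/
def sparseZeros {n : ℕ} (F : Set (MvPolynomial (Fin n) ℤ)) (r B : ℕ) : Set (Fin n → ℚ) :=
  {x | (∀ f ∈ F, aeval x f = 0) ∧ ∃ (b : ℕ) (e : Fin r → ℕ), 2 ≤ b ∧ IsSparse B b e x}

/-- the height of a rational number -/
def ht (x : ℚ) : ℕ := max x.num.natAbs x.den

/-- the bound for the bases -/
def bb (r B d A : ℕ) : ℕ := (1 + A) * (r * B) ^ d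

/-- the bound for the heights -/
def hb (r B d A : ℕ) : ℕ := r * B * (bb r B d A) ^ (4 * (4 * d) ^ r)

/-- the bound for the powers of the base -/
def eb (r B d A : ℕ) : ℕ :=
  (bb r B d A) ^ (4 * (4 * d) ^ r + (2 * (4 * d) ^ r + 2) ^ r *
    ((1 + (2 * hb r B d A + 1) * hb r B d A) * (2 * (4 * d) ^ r + 1)) * (2 * (4 * d) ^ r + 1))

variable {n r : ℕ}

theorem pos_of_sparse {B b : ℕ} {e : Fin r → ℕ} {x : Fin n → ℚ} (h : IsSparse B b e x) :
    1 ≤ r * B := by
  obtain ⟨c0, c, hc0, _, hw, _⟩ := h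
  by_contra hcon
  apply hw
  unfold sp
  rcases Nat.mul_eq_zero.1 (show r * B = 0 by omega) with h | h
  · subst h
    simp
  · have h1 : ∀ j, c0 j = 0 := fun j => by
      have := hc0 j
      rw [h] at this
      exact abs_eq_zero.1 (le_antisymm (by simpa using this) (abs_nonneg _))
    simp [h1]

/-- the deformation of a sparse zero -/
theorem deform (F : Set (MvPolynomial (Fin n) ℤ)) (d A B : ℕ) (hd1 : 1 ≤ d) (hA1 : 1 ≤ A)
    (hd : ∀ f ∈ F, f.totalDegree ≤ d) (hA : ∀ f ∈ F, coeffSum f ≤ A)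
    (x : Fin n → ℚ) (hx : ∀ f ∈ F, aeval x f = 0) (b : ℕ) (hb2 : 2 ≤ b) (e : Fin r → ℕ)
    (c0 : Fin r → ℤ) (c : Fin n → Fin r → ℤ) (hc0 : ∀ j, |c0 j| ≤ B) (hc : ∀ i j, |c i j| ≤ B)
    (hw : sp b e c0 ≠ 0) (hxc : ∀ i, x i = (sp b e (c i) : ℚ) / sp b e c0)
    (hrB : 1 ≤ r * B) :
    ∃ m l : Fin r → ℕ, (∀ j, m j + l j = e j) ∧
      (∀ i k, |(sub (b : ℤ) m l (li ((Fin.cons c0 c : Fin (n + 1) → Fin r → ℤ) i))).coeff k| ≤
        (hb r B d A : ℤ)) ∧
      ∀ s : ℚ, Polynomial.aeval s (sub (b : ℤ) m l (li c0)) ≠ 0 → ∀ f ∈ F,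
        aeval (fun i => Polynomial.aeval s (sub (b : ℤ) m l (li (c i))) /
          Polynomial.aeval s (sub (b : ℤ) m l (li c0))) f = 0 := by
  classical
  set c' : Fin (n + 1) → Fin r → ℤ := Fin.cons c0 c with hc'def
  have hc' : ∀ i j, |c' i j| ≤ B := by
    intro i
    refine Fin.cases (fun j => hc0 j) (fun i j => hc i j) i
  set z : Fin (n + 1) → ℤ := fun i => sp b e (c' i) with hz
  have hw' : z 0 ≠ 0 := hw
  have hwQ : ((z 0 : ℤ) : ℚ) ≠ 0 := by exact_mod_cast hw'
  have hqz : (fun i : Fin n => ((z i.succ : ℤ) : ℚ) / ((z 0 : ℤ) : ℚ)) = x :=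
    funext fun i => (hxc i).symm
  obtain ⟨m, l, hml, hv, hco⟩ := param_explicit {G | ∃ f ∈ F, G = hom d f} d hd1 A hA1 (by
    rintro G ⟨f, hf, rfl⟩
    exact hom_degree d f (hd f hf)) (by
    rintro G ⟨f, hf, rfl⟩
    exact (hom_nz d f).trans (hA f hf)) b hb2 B hrB e c' hc' z (fun i => rfl) (by
    rintro G ⟨f, hf, rfl⟩
    have h2 := (hom_zero_iff d f (hd f hf) (fun i => (z i : ℚ)) hwQ).2 (by
      rw [hqz]; exact hx f hf)
    rw [aeval_intCast] at h2
    exact_mod_cast h2)
  refine ⟨m, l, hml, hco, fun s hs f hf => ?_⟩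
  set z' : Fin (n + 1) → ℚ := fun i =>
    Polynomial.aeval s (sub (b : ℤ) m l (li (c' i))) with hz'
  have h3 := (hom_zero_iff d f (hd f hf) z' hs).1 (by
    have h4 := congrArg (Polynomial.aeval s) (hv _ ⟨f, hf, rfl⟩)
    rw [map_zero, comp_aeval_apply] at h4
    exact h4)
  exact h3

/-- a sparse zero of large height gives infinitely many of them -/
theorem infinite_of_large (F : Set (MvPolynomial (Fin n) ℤ)) (d A B : ℕ) (hd1 : 1 ≤ d)
    (hA1 : 1 ≤ A) (hd : ∀ f ∈ F, f.totalDegree ≤ d) (hA : ∀ f ∈ F, coeffSum f ≤ A)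
    (x : Fin n → ℚ) (hx : x ∈ sparseZeros F r B) (i : Fin n) (hi : hb r B d A < ht (x i)) :
    (sparseZeros F r B).Infinite ∧ ∃ p : Fin (n + 1) → Polynomial ℤ, p 0 ≠ 0 ∧
      (∀ i k, |(p i).coeff k| ≤ (hb r B d A : ℤ)) ∧
      (∃ i : Fin n, ∀ u v : ℤ, v ≠ 0 →
        Polynomial.C v * p i.succ ≠ Polynomial.C u * p 0) ∧
      ∀ s : ℚ, Polynomial.aeval s (p 0) ≠ 0 → ∀ f ∈ F,
        aeval (fun i : Fin n => Polynomial.aeval s (p i.succ) / Polynomial.aeval s (p 0)) f = 0 := by
  classical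
  obtain ⟨hx0, b, e, hb2, hsp⟩ := hx
  have hrB := pos_of_sparse hsp
  obtain ⟨c0, c, hc0, hc, hw, hxc⟩ := hsp
  obtain ⟨m, l, hml, hco, hv⟩ := deform F d A B hd1 hA1 hd hA x hx0 b hb2 e c0 c hc0 hc hw hxc hrB
  set p0 := sub (b : ℤ) m l (li c0) with hp0
  set p : Fin n → Polynomial ℤ := fun i => sub (b : ℤ) m l (li (c i)) with hp
  have hN : ∀ (g : Fin r → ℤ) (N : ℕ), (sub (b : ℤ) m l (li g)).eval ((b : ℤ) ^ N) =
      sp b (fun j => m j + N * l j) g := fun g N => sub_li_eval_pow _ _ _ _ _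
  have hN1 : ∀ g : Fin r → ℤ, (sub (b : ℤ) m l (li g)).eval (b : ℤ) = sp b e g := by
    intro g
    have h1 := hN g 1
    rw [pow_one] at h1
    rw [h1]
    congr 1
    funext j
    rw [one_mul, hml]
  have hp00 : p0 ≠ 0 := by
    intro h
    apply hw
    rw [← hN1, ← hp0, h, Polynomial.eval_zero]
  have hwQ : ((sp b e c0 : ℤ) : ℚ) ≠ 0 := by exact_mod_cast hw
  -- the coordinate `i` is not constant on the curve
  have hne : ∀ u v : ℤ, v ≠ 0 → Polynomial.C v * p i ≠ Polynomial.C u * p0 := by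
    intro u v hv0 heq
    have hv0Q : (v : ℚ) ≠ 0 := by exact_mod_cast hv0
    obtain ⟨k, hk⟩ : ∃ k, p0.coeff k ≠ 0 := by
      by_contra hcon
      push Not at hcon
      exact hp00 (Polynomial.ext fun k => by rw [hcon k, Polynomial.coeff_zero])
    have h1 : v * (p i).coeff k = u * p0.coeff k := by
      have := congrArg (fun g => Polynomial.coeff g k) heq
      simpa only [Polynomial.coeff_C_mul] using this
    have h2 : v * sp b e (c i) = u * sp b e c0 := by
      have := congrArg (fun g => Polynomial.eval (b : ℤ) g) heq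
      simp only [Polynomial.eval_mul, Polynomial.eval_C] at this
      rw [hp, hp0, hN1, hN1] at this
      exact this
    have hkQ : (p0.coeff k : ℚ) ≠ 0 := by exact_mod_cast hk
    have h1Q : (v : ℚ) * (p i).coeff k = u * p0.coeff k := by exact_mod_cast h1
    have h2Q : (v : ℚ) * sp b e (c i) = u * sp b e c0 := by exact_mod_cast h2
    have h3 : (p0.coeff k : ℚ) * x i = (p i).coeff k := by
      rw [hxc i]
      have h4 : (sp b e (c i) : ℚ) / sp b e c0 = u / v := by
        rw [div_eq_div_iff hwQ hv0Q]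
        linarith
      have h5 : ((p i).coeff k : ℚ) = p0.coeff k * (u / v) := by
        field_simp
        linarith
      rw [h4, h5]
    have h6 : height (x i) ≤ hb r B d A := by
      rw [height_le_iff]
      have h7 := hco i.succ k
      have h8 := hco 0 k
      simp only [Fin.cons_succ, Fin.cons_zero] at h7 h8
      rcases lt_or_gt_of_ne hk with h9 | h9
      · refine ⟨-(p i).coeff k, -p0.coeff k, ?_, by omega, ?_, ?_⟩
        · rw [abs_neg]
          exact h7
        · exact (neg_le_abs _).trans h8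
        · push_cast
          linarith
      · exact ⟨(p i).coeff k, p0.coeff k, h7, by omega, (le_abs_self _).trans h8, h3⟩
    exact absurd h6 (not_le.2 hi)
  refine ⟨?_, Fin.cons p0 p, ?_, ?_, ⟨i, ?_⟩, ?_⟩
  · -- infinitely many points
    intro hfin
    have h1 : {N : ℕ | p0.eval ((b : ℤ) ^ N) = 0}.Finite := fin_powers p0 hp00 b hb2
    set q : ℕ → Fin n → ℚ := fun N i =>
      (sp b (fun j => m j + N * l j) (c i) : ℚ) / sp b (fun j => m j + N * l j) c0 with hq
    have h2 : ∀ N, p0.eval ((b : ℤ) ^ N) ≠ 0 → q N ∈ sparseZeros F r B := by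
      intro N hN0
      refine ⟨?_, b, fun j => m j + N * l j, hb2, c0, c, hc0, hc, ?_, fun i => rfl⟩
      · intro f hf
        have h3 : ∀ g : Polynomial ℤ, Polynomial.aeval (((b : ℤ) ^ N : ℤ) : ℚ) g =
            ((g.eval ((b : ℤ) ^ N) : ℤ) : ℚ) := by
          intro g
          have := Polynomial.aeval_algebraMap_apply ℚ ((b : ℤ) ^ N) g
          simpa using this
        have h4 := hv (((b : ℤ) ^ N : ℤ) : ℚ) (by
          rw [h3]
          exact_mod_cast hN0) f hf
        rw [← h4]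
        congr 1
        congr 1
        funext i
        rw [h3, h3, hp0, hN, hN]
      · rw [← hN]
        exact hN0
    have h3 : ∀ v : ℚ, {N : ℕ | p0.eval ((b : ℤ) ^ N) ≠ 0 ∧ q N i = v}.Finite := by
      intro v
      have h4 : Polynomial.C (v.den : ℤ) * p i - Polynomial.C v.num * p0 ≠ 0 :=
        _root_.sub_ne_zero.2 (hne v.num v.den (by exact_mod_cast v.den_nz))
      refine (fin_powers _ h4 b hb2).subset ?_
      rintro N ⟨h5, h6⟩
      show Polynomial.eval _ _ = 0
      rw [Polynomial.eval_sub, Polynomial.eval_mul, Polynomial.eval_mul, Polynomial.eval_C,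
        Polynomial.eval_C]
      have h7 : ((p0.eval ((b : ℤ) ^ N) : ℤ) : ℚ) ≠ 0 := by exact_mod_cast h5
      have h8 : (((p i).eval ((b : ℤ) ^ N) : ℤ) : ℚ) / ((p0.eval ((b : ℤ) ^ N) : ℤ) : ℚ) =
          v := by
        rw [hp, hp0, hN, hN]
        exact h6
      have h9 : (v.den : ℚ) * v = v.num := by
        rw [mul_comm]
        exact Rat.mul_den_eq_num v
      have h10 : ((v.den : ℤ) * (p i).eval ((b : ℤ) ^ N) - v.num * p0.eval ((b : ℤ) ^ N) : ℤ) =
          (0 : ℤ) := by
        have h11 : (v.den : ℚ) * (((p i).eval ((b : ℤ) ^ N) : ℤ) : ℚ) -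
            v.num * ((p0.eval ((b : ℤ) ^ N) : ℤ) : ℚ) = 0 := by
          rw [div_eq_iff h7] at h8
          rw [h8, ← h9]
          ring
        exact_mod_cast h11
      exact h10
    have h4 : ((fun y : Fin n → ℚ => y i) '' sparseZeros F r B).Finite := hfin.image _
    have h5 : (Set.univ : Set ℕ).Finite := by
      refine (h1.union (h4.biUnion fun v _ => h3 v)).subset ?_
      intro N _
      by_cases h6 : p0.eval ((b : ℤ) ^ N) = 0
      · exact Or.inl h6
      · right
        refine Set.mem_biUnion (x := q N i) ⟨q N, h2 N h6, rfl⟩ ⟨h6, rfl⟩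
    exact Set.infinite_univ h5
  · exact hp00
  · intro j
    have h1 := hco j
    refine Fin.cases ?_ (fun j => ?_) j
    · intro k
      exact hco 0 k
    · intro k
      exact hco j.succ k
  · intro u v hv0
    exact hne u v hv0
  · intro s hs f hf
    exact hv s hs f hf

/-- if the height of all coordinates is bounded there are only finitely many points -/
theorem finite_of_small (T : Set (Fin n → ℚ)) (M : ℕ) (h : ∀ x ∈ T, ∀ i, ht (x i) ≤ M) :
    T.Finite := by
  refine (Set.Finite.pi' (fun _ : Fin n => finite_height M)).subset ?_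
  intro x hx i
  exact h x hx i

/-- a sparse zero of large height can be replaced by a small one with the same coefficients -/
theorem small_of_large (F : Set (MvPolynomial (Fin n) ℤ)) (d A B : ℕ) (hd1 : 1 ≤ d)
    (hA1 : 1 ≤ A) (hd : ∀ f ∈ F, f.totalDegree ≤ d) (hA : ∀ f ∈ F, coeffSum f ≤ A)
    (x : Fin n → ℚ) (hx : x ∈ sparseZeros F r B) (i : Fin n) (hi : hb r B d A < ht (x i)) :
    ∃ (x : Fin n → ℚ) (b : ℕ) (e : Fin r → ℕ), (∀ f ∈ F, aeval x f = 0) ∧ 2 ≤ b ∧
      b ≤ bb r B d A ∧ (∀ j, b ^ (e j) ≤ eb r B d A) ∧ IsSparse B b e x ∧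
      ∃ i, hb r B d A < ht (x i) := by
  classical
  obtain ⟨hx0, b, e, hb2, hsp⟩ := hx
  have hrB := pos_of_sparse hsp
  obtain ⟨c0, c, hc0, hc, hw, hxc⟩ := hsp
  set M := hb r B d A with hM
  set c' : Fin (n + 1) → Fin r → ℤ := Fin.cons c0 c with hc'def
  have hc' : ∀ i j, |c' i j| ≤ B := by
    intro i
    refine Fin.cases (fun j => hc0 j) (fun i j => hc i j) i
  have hwQ : ((sp b e c0 : ℤ) : ℚ) ≠ 0 := by exact_mod_cast hw
  have hqz : (fun i : Fin n => ((sp b e (c' i.succ) : ℤ) : ℚ) / ((sp b e (c' 0) : ℤ) : ℚ)) = x :=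
    funext fun i => (hxc i).symm
  set I : Finset (ℤ × ℤ) := Finset.Icc (-(M : ℤ)) M ×ˢ Finset.Icc (1 : ℤ) M with hI
  set P : MvPolynomial (Fin (n + 1)) ℤ :=
    X 0 * ∏ w ∈ I, (C w.2 * X i.succ - C w.1 * X 0) with hP
  have hPdeg : P.totalDegree ≤ 1 + (2 * M + 1) * M := by
    have h1 : ∀ w ∈ I, (C w.2 * X i.succ - C w.1 * X 0 :
        MvPolynomial (Fin (n + 1)) ℤ).totalDegree ≤ 1 := by
      intro w _
      refine (totalDegree_sub _ _).trans (max_le ?_ ?_)
      · refine (totalDegree_mul _ _).trans ?_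
        rw [totalDegree_C, totalDegree_X]
      · refine (totalDegree_mul _ _).trans ?_
        rw [totalDegree_C, totalDegree_X]
    have h2 : (∏ w ∈ I, (C w.2 * X i.succ - C w.1 * X 0) :
        MvPolynomial (Fin (n + 1)) ℤ).totalDegree ≤ (2 * M + 1) * M := by
      refine (totalDegree_finsetProd _ _).trans ?_
      calc ∑ w ∈ I, (C w.2 * X i.succ - C w.1 * X 0 :
            MvPolynomial (Fin (n + 1)) ℤ).totalDegree ≤ ∑ w ∈ I, 1 := Finset.sum_le_sum h1
        _ = I.card := by simp
        _ = (2 * M + 1) * M := by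
          rw [hI, Finset.card_product, Int.card_Icc, Int.card_Icc]
          congr 1 <;> omega
    rw [hP]
    refine (totalDegree_mul _ _).trans ?_
    rw [totalDegree_X]
    omega
  have hPev : ∀ (b : ℕ) (e : Fin r → ℕ), eval (fun i => ∑ j, c' i j * (b : ℤ) ^ (e j)) P =
      sp b e c0 * ∏ w ∈ I, (w.2 * sp b e (c i) - w.1 * sp b e c0) := by
    intro b e
    rw [hP, map_mul, map_prod, eval_X]
    congr 1
    refine Finset.prod_congr rfl fun w _ => ?_
    rw [map_sub, map_mul, map_mul, eval_C, eval_C, eval_X, eval_X]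
    rfl
  obtain ⟨b', e', h1, _, h3, h4, h5, h6⟩ := small_solution {G | ∃ f ∈ F, G = hom d f} d hd1 A
    hA1 (by
    rintro G ⟨f, hf, rfl⟩
    exact hom_degree d f (hd f hf)) (by
    rintro G ⟨f, hf, rfl⟩
    exact (hom_nz d f).trans (hA f hf)) P (1 + (2 * M + 1) * M) hPdeg b hb2 B hrB e c' hc' (by
    rintro G ⟨f, hf, rfl⟩
    have h2 := (hom_zero_iff d f (hd f hf) (fun i => (sp b e (c' i) : ℚ)) hwQ).2 (by
      rw [hqz]; exact hx0 f hf)
    rw [aeval_intCast] at h2
    exact_mod_cast h2) (by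
    rw [hPev]
    refine mul_ne_zero hw (Finset.prod_ne_zero_iff.2 fun w hw1 h0 => ?_)
    rw [hI, Finset.mem_product, Finset.mem_Icc, Finset.mem_Icc] at hw1
    have h2 : height (x i) ≤ M := by
      rw [height_le_iff]
      refine ⟨w.1, w.2, abs_le.2 ⟨hw1.1.1, hw1.1.2⟩, hw1.2.1, hw1.2.2, ?_⟩
      rw [hxc i, mul_div_assoc', div_eq_iff hwQ]
      have h7 : w.2 * sp b e (c i) = w.1 * sp b e c0 := by linarith
      exact_mod_cast h7
    exact absurd h2 (not_le.2 hi))
  rw [hPev] at h6
  have hw' : sp b' e' c0 ≠ 0 := left_ne_zero_of_mul h6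
  have hwQ' : ((sp b' e' c0 : ℤ) : ℚ) ≠ 0 := by exact_mod_cast hw'
  refine ⟨fun i => (sp b' e' (c i) : ℚ) / sp b' e' c0, b', e', ?_, h1, h3, h4,
    ⟨c0, c, hc0, hc, hw', fun i => rfl⟩, i, ?_⟩
  · intro f hf
    have h7 := h5 _ ⟨f, hf, rfl⟩
    refine (hom_zero_iff d f (hd f hf) (fun i => (sp b' e' (c' i) : ℚ)) hwQ').1 ?_
    rw [aeval_intCast]
    exact_mod_cast h7
  · by_contra hcon
    push Not at hcon
    obtain ⟨u, v, hu, hv1, hv2, huv⟩ := (height_le_iff _ _).1 hcon
    refine right_ne_zero_of_mul h6 (Finset.prod_eq_zero (i := (u, v)) ?_ ?_)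
    · rw [hI, Finset.mem_product, Finset.mem_Icc, Finset.mem_Icc]
      exact ⟨abs_le.1 hu, hv1, hv2⟩
    · rw [mul_div_assoc', div_eq_iff hwQ'] at huv
      have h8 : v * sp b' e' (c i) = u * sp b' e' c0 := by exact_mod_cast huv
      show v * sp b' e' (c i) - u * sp b' e' c0 = 0
      linarith

theorem result {n r : ℕ} (F : Set (MvPolynomial (Fin n) ℤ)) (d A B : ℕ) (hd1 : 1 ≤ d)
    (hA1 : 1 ≤ A) (hd : ∀ f ∈ F, f.totalDegree ≤ d) (hA : ∀ f ∈ F, coeffSum f ≤ A) :
    ((sparseZeros F r B).Infinite ↔ ∃ x ∈ sparseZeros F r B, ∃ i, hb r B d A < ht (x i)) ∧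
    ((sparseZeros F r B).Infinite ↔
      ∃ (x : Fin n → ℚ) (b : ℕ) (e : Fin r → ℕ), (∀ f ∈ F, aeval x f = 0) ∧ 2 ≤ b ∧
        b ≤ bb r B d A ∧ (∀ j, b ^ (e j) ≤ eb r B d A) ∧ IsSparse B b e x ∧
        ∃ i, hb r B d A < ht (x i)) ∧
    ((sparseZeros F r B).Infinite → ∃ p : Fin (n + 1) → Polynomial ℤ, p 0 ≠ 0 ∧
      (∀ i k, |(p i).coeff k| ≤ (hb r B d A : ℤ)) ∧
      (∃ i : Fin n, ∀ u v : ℤ, v ≠ 0 →
        Polynomial.C v * p i.succ ≠ Polynomial.C u * p 0) ∧
      ∀ s : ℚ, Polynomial.aeval s (p 0) ≠ 0 → ∀ f ∈ F,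
        aeval (fun i : Fin n =>
          Polynomial.aeval s (p i.succ) / Polynomial.aeval s (p 0)) f = 0) := by
  have h1 : (sparseZeros F r B).Infinite → ∃ x ∈ sparseZeros F r B, ∃ i,
      hb r B d A < ht (x i) := by
    intro h
    by_contra hcon
    push Not at hcon
    exact h (finite_of_small _ _ hcon)
  refine ⟨⟨h1, ?_⟩, ⟨?_, ?_⟩, ?_⟩
  · rintro ⟨x, hx, i, hi⟩
    exact (infinite_of_large F d A B hd1 hA1 hd hA x hx i hi).1
  · intro h
    obtain ⟨x, hx, i, hi⟩ := h1 h
    exact small_of_large F d A B hd1 hA1 hd hA x hx i hi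
  · rintro ⟨x, b, e, hx, hb2, _, _, hsp, i, hi⟩
    exact (infinite_of_large F d A B hd1 hA1 hd hA x ⟨hx, b, e, hb2, hsp⟩ i hi).1
  · intro h
    obtain ⟨x, hx, i, hi⟩ := h1 h
    exact (infinite_of_large F d A B hd1 hA1 hd hA x hx i hi).2

end Pool.Agent.Results.MP_d6ddbd_nt.SparseInfinitude
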